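import Mathlib

/-!
# Haar measure does not minimise the mean cover time of growing balls

The group is the cyclic group of order four with the cycle metric.
-/

open MeasureTheory ProbabilityTheory Set
open scoped ENNReal

namespace Pool.Agent.Results.MP_b215e8_pr.HaarNotOptimal

/-- The arrival time of the seed with index `i`, from the waiting times `ξ`. -/
noncomputable def arrival (ξ : ℕ → ℝ) (i : ℕ) : ℝ := ∑ j ∈ Finset.range (i + 1), ξ j

/-- The set covered at time `t`: the union over the seeds `σ i` with arrival time at most `t` of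
the closed balls around `σ i` of radius `v (t - arrival time)`. -/
def grown {S : Type} [MetricSpace S] (v : ℝ) (ξ : ℕ → ℝ) (σ : ℕ → S) (t : ℝ) : Set S :=
  {s | ∃ i, arrival ξ i ≤ t ∧ dist (σ i) s ≤ v * (t - arrival ξ i)}

/-- The cover time. -/
noncomputable def coverTime {S : Type} [MetricSpace S] (v : ℝ) (ξ : ℕ → ℝ) (σ : ℕ → S) : ℝ :=
  sInf {t : ℝ | 0 ≤ t ∧ grown v ξ σ t = univ}

/-- The mean cover time: independent exponential waiting times of rate `r` and, independently,
independent seeds with law `μ`. -/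
noncomputable def meanCover {S : Type} [MetricSpace S] [MeasurableSpace S] (r v : ℝ)
    (μ : Measure S) : ℝ≥0∞ :=
  ∫⁻ ω : (ℕ → ℝ) × (ℕ → S), ENNReal.ofReal (coverTime v ω.1 ω.2)
    ∂((Measure.infinitePi fun _ : ℕ => expMeasure r).prod (Measure.infinitePi fun _ : ℕ => μ))

/-! ### The exponential law -/

theorem lint_exp (r : ℝ) (F : ℝ → ℝ≥0∞) (hF : Measurable F) :
    ∫⁻ s, F s ∂(expMeasure r) =
      ∫⁻ s in Ioi (0 : ℝ), F s * ENNReal.ofReal (r * Real.exp (-(r * s))) := by
  have h1 : expMeasure r = volume.withDensity (exponentialPDF r) := rfl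
  have hm : Measurable (exponentialPDF r) :=
    (measurable_exponentialPDFReal r).ennreal_ofReal
  rw [h1, lintegral_withDensity_eq_lintegral_mul _ hm hF]
  have h2 : ∀ s : ℝ, (exponentialPDF r * F) s =
      (Ici (0 : ℝ)).indicator (fun s => F s * ENNReal.ofReal (r * Real.exp (-(r * s)))) s := by
    intro s
    rw [Pi.mul_apply]
    by_cases hs : 0 ≤ s
    · rw [indicator_of_mem (by exact hs), exponentialPDF_of_nonneg hs, mul_comm]
    · rw [indicator_of_notMem (by exact hs), exponentialPDF_of_neg (not_le.1 hs), zero_mul]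
  simp_rw [h2]
  rw [lintegral_indicator measurableSet_Ici]
  exact setLIntegral_congr Ioi_ae_eq_Ici.symm

theorem exp_ae_pos (r : ℝ) : ∀ᵐ s ∂(expMeasure r), 0 < s := by
  rw [ae_iff]
  have h1 : {s : ℝ | ¬ 0 < s} = Iic 0 := by
    ext s
    simp
  rw [h1, ← lintegral_indicator_one measurableSet_Iic, lint_exp]
  · rw [setLIntegral_congr_fun measurableSet_Ioi (g := fun _ => 0)]
    · simp
    · intro s hs
      have hs0 : (0 : ℝ) < s := hs
      dsimp only
      rw [indicator_of_notMem, zero_mul]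
      exact not_le.2 hs0
  · exact measurable_one.indicator measurableSet_Iic

theorem exp_mean_lt_top {r : ℝ} (hr : 0 < r) : ∫⁻ t, ENNReal.ofReal t ∂(expMeasure r) ≠ ⊤ := by
  apply ne_of_lt
  rw [lint_exp r _ (by fun_prop)]
  have h1 : ∫⁻ s in Ioi (0:ℝ), ENNReal.ofReal (2 * Real.exp (-(r / 2) * s)) < ⊤ := by
    have := (integrableOn_exp_mul_Ioi (a := -(r / 2)) (by linarith) 0).const_mul 2
    exact this.lintegral_lt_top
  refine lt_of_le_of_lt ?_ h1
  apply setLIntegral_mono' measurableSet_Ioi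
  intro s hs
  have hs' : (0:ℝ) < s := hs
  rw [← ENNReal.ofReal_mul (by positivity)]
  apply ENNReal.ofReal_le_ofReal
  have e1 := Real.add_one_le_exp (r / 2 * s)
  have e2 : Real.exp (-(r / 2) * s) = Real.exp (r / 2 * s) * Real.exp (-(r * s)) := by
    rw [← Real.exp_add]; congr 1; ring
  rw [e2]
  have e3 := Real.exp_pos (-(r * s))
  nlinarith

theorem exp_lt_two {r : ℝ} (hr : 0 < r) : (expMeasure r) (Iio 2) ≤ ENNReal.ofReal (2 * r) := by
  rw [← lintegral_indicator_one measurableSet_Iio, lint_exp r _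
    (measurable_one.indicator measurableSet_Iio)]
  calc ∫⁻ s in Ioi (0 : ℝ), (Iio (2 : ℝ)).indicator 1 s *
        ENNReal.ofReal (r * Real.exp (-(r * s)))
      ≤ ∫⁻ s in Ioi (0 : ℝ), (Iio (2 : ℝ)).indicator (fun _ => ENNReal.ofReal r) s := by
        apply setLIntegral_mono' measurableSet_Ioi
        intro s hs
        have hs' : (0:ℝ) < s := hs
        by_cases h : s ∈ Iio (2 : ℝ)
        · rw [indicator_of_mem h, indicator_of_mem h]
          simp only [Pi.one_apply, one_mul]
          apply ENNReal.ofReal_le_ofReal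
          have : Real.exp (-(r * s)) ≤ 1 := Real.exp_le_one_iff.mpr (by nlinarith)
          nlinarith
        · rw [indicator_of_notMem h, indicator_of_notMem h]
          simp
    _ = ENNReal.ofReal (2 * r) := by
        rw [lintegral_indicator measurableSet_Iio, Measure.restrict_restrict measurableSet_Iio,
          lintegral_const]
        have : Iio (2 : ℝ) ∩ Ioi 0 = Ioo 0 2 := by
          ext x
          simp [and_comm]
        rw [this]
        simp only [MeasurableSet.univ, Measure.restrict_apply, univ_inter, Real.volume_Ioo]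
        rw [← ENNReal.ofReal_mul hr.le]
        congr 1
        ring

/-- The saving when the second seed is at distance two. -/
noncomputable def fA (u : ℝ) : ℝ := 2 - max 1 (min 2 u)

/-- The saving when the second seed is at distance one. -/
noncomputable def fB (u : ℝ) : ℝ := 2 - min 2 (max 1 (u + 1))

theorem fA_nonneg (u : ℝ) : 0 ≤ fA u := by
  unfold fA
  have : max 1 (min 2 u) ≤ 2 := max_le (by norm_num) (min_le_left _ _)
  linarith

theorem fA_le (u : ℝ) : fA u ≤ 2 := by
  unfold fA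
  have : 1 ≤ max 1 (min 2 u) := le_max_left _ _
  linarith

theorem fB_nonneg (u : ℝ) : 0 ≤ fB u := by
  unfold fB
  have : min 2 (max 1 (u + 1)) ≤ 2 := min_le_left _ _
  linarith

theorem fB_le (u : ℝ) : fB u ≤ 2 := by
  unfold fB
  have : 1 ≤ min 2 (max 1 (u + 1)) := le_min (by norm_num) (le_max_left _ _)
  linarith

theorem continuous_fA : Continuous fA := by
  unfold fA
  fun_prop

theorem continuous_fB : Continuous fB := by
  unfold fB
  fun_prop

theorem lint_interval {a b : ℝ} (hab : a ≤ b) (f : ℝ → ℝ) (hf : Continuous f)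
    (h0 : ∀ x ∈ Ioc a b, 0 ≤ f x) :
    ∫⁻ x in Ioc a b, ENNReal.ofReal (f x) = ENNReal.ofReal (∫ x in a..b, f x) := by
  rw [intervalIntegral.integral_of_le hab]
  rw [ofReal_integral_eq_lintegral_ofReal]
  · exact (hf.integrableOn_Icc).mono_set Ioc_subset_Icc_self
  · rw [Filter.EventuallyLE, ae_restrict_iff' measurableSet_Ioc]
    exact Filter.Eventually.of_forall fun x hx => h0 x hx

theorem lintA {r : ℝ} (hr : 0 < r) :
    ENNReal.ofReal (3 / 2 * (r * Real.exp (-(2 * r)))) ≤
      ∫⁻ u, ENNReal.ofReal (fA u) ∂(expMeasure r) := by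
  rw [lint_exp r _ continuous_fA.measurable.ennreal_ofReal]
  have h1 : ∫⁻ s in Ioc (0 : ℝ) 2, ENNReal.ofReal (fA s * (r * Real.exp (-(2 * r)))) ≤
      ∫⁻ s in Ioi (0 : ℝ), ENNReal.ofReal (fA s) * ENNReal.ofReal (r * Real.exp (-(r * s))) := by
    refine le_trans ?_ (lintegral_mono_set (Ioc_subset_Ioi_self : Ioc (0 : ℝ) 2 ⊆ Ioi 0))
    apply setLIntegral_mono' measurableSet_Ioc
    intro s hs
    rw [← ENNReal.ofReal_mul (fA_nonneg s)]
    apply ENNReal.ofReal_le_ofReal
    refine mul_le_mul_of_nonneg_left ?_ (fA_nonneg s)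
    refine mul_le_mul_of_nonneg_left ?_ hr.le
    apply Real.exp_le_exp.mpr
    nlinarith [hs.2]
  refine le_trans ?_ h1
  rw [lint_interval (by norm_num) (fun s => fA s * (r * Real.exp (-(2 * r))))
    (continuous_fA.mul continuous_const) (fun x _ => mul_nonneg (fA_nonneg x) (by positivity))]
  apply ENNReal.ofReal_le_ofReal
  rw [intervalIntegral.integral_mul_const]
  refine mul_le_mul_of_nonneg_right ?_ (by positivity)
  rw [← intervalIntegral.integral_add_adjacent_intervals (b := 1)
    (continuous_fA.intervalIntegrable _ _) (continuous_fA.intervalIntegrable _ _)]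
  have e1 : ∫ x in (0 : ℝ)..1, fA x = ∫ x in (0 : ℝ)..1, (1 : ℝ) := by
    refine intervalIntegral.integral_congr fun x hx => ?_
    rw [uIcc_of_le (by norm_num)] at hx
    unfold fA
    rw [max_eq_left]
    · norm_num
    · exact (min_le_right _ _).trans hx.2
  have e2 : ∫ x in (1 : ℝ)..2, fA x = ∫ x in (1 : ℝ)..2, (2 - x) := by
    refine intervalIntegral.integral_congr fun x hx => ?_
    rw [uIcc_of_le (by norm_num)] at hx
    unfold fA
    rw [min_eq_right hx.2, max_eq_right hx.1]
  rw [e1, e2]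
  have e3 : ∫ x in (1 : ℝ)..2, (2 - x) = 1 / 2 := by
    rw [intervalIntegral.integral_sub (by simp) (by simp)]
    simp
    norm_num
  rw [e3]
  simp
  norm_num

theorem lintB {r : ℝ} (hr : 0 < r) :
    ∫⁻ u, ENNReal.ofReal (fB u) ∂(expMeasure r) ≤ ENNReal.ofReal (r / 2) := by
  rw [lint_exp r _ continuous_fB.measurable.ennreal_ofReal]
  have h1 : ∫⁻ s in Ioi (0 : ℝ), ENNReal.ofReal (fB s) * ENNReal.ofReal (r * Real.exp (-(r * s)))
      ≤ ∫⁻ s in Ioi (0 : ℝ), (Ioc (0 : ℝ) 1).indicator
        (fun s => ENNReal.ofReal (fB s * r)) s := by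
    apply setLIntegral_mono' measurableSet_Ioi
    intro s hs
    have hs' : (0:ℝ) < s := hs
    by_cases h : s ∈ Ioc (0 : ℝ) 1
    · rw [indicator_of_mem h, ← ENNReal.ofReal_mul (fB_nonneg s)]
      apply ENNReal.ofReal_le_ofReal
      refine mul_le_mul_of_nonneg_left ?_ (fB_nonneg s)
      have : Real.exp (-(r * s)) ≤ 1 := Real.exp_le_one_iff.mpr (by nlinarith)
      nlinarith
    · rw [indicator_of_notMem h]
      have : 1 < s := by
        by_contra h'
        exact h ⟨hs', not_lt.mp h'⟩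
      have h2 : fB s = 0 := by
        unfold fB
        rw [min_eq_left]
        · norm_num
        · exact le_trans (by linarith) (le_max_right _ _)
      rw [h2]
      simp
  refine h1.trans ?_
  rw [lintegral_indicator measurableSet_Ioc, Measure.restrict_restrict measurableSet_Ioc]
  have h3 : Ioc (0 : ℝ) 1 ∩ Ioi 0 = Ioc 0 1 := inter_eq_left.mpr Ioc_subset_Ioi_self
  rw [h3, lint_interval (by norm_num) (fun s => fB s * r)
    (continuous_fB.mul continuous_const) (fun x _ => mul_nonneg (fB_nonneg x) hr.le)]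
  apply ENNReal.ofReal_le_ofReal
  rw [intervalIntegral.integral_mul_const]
  have e2 : ∫ x in (0 : ℝ)..1, fB x = ∫ x in (0 : ℝ)..1, (1 - x) := by
    refine intervalIntegral.integral_congr fun x hx => ?_
    rw [uIcc_of_le (by norm_num)] at hx
    unfold fB
    rw [max_eq_right (by linarith [hx.1]), min_eq_right (by linarith [hx.2])]
    ring
  have e3 : ∫ x in (0 : ℝ)..1, (1 - x) = 1 / 2 := by
    rw [intervalIntegral.integral_sub (by simp) (by simp)]
    simp
    norm_num
  rw [e2, e3]
  linarith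

/-! ### The group -/

/-- The cyclic group of order four. -/
def Z4 : Type := Multiplicative (ZMod 4)

instance : CommGroup Z4 := inferInstanceAs (CommGroup (Multiplicative (ZMod 4)))
instance : DecidableEq Z4 := inferInstanceAs (DecidableEq (Multiplicative (ZMod 4)))
instance : Fintype Z4 := inferInstanceAs (Fintype (Multiplicative (ZMod 4)))

/-- The cycle distance. -/
def dN (x y : Z4) : ℕ :=
  min (Multiplicative.toAdd (x / y) : ZMod 4).val (Multiplicative.toAdd (y / x) : ZMod 4).val

theorem dN_self : ∀ x, dN x x = 0 := by decide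
theorem dN_comm : ∀ x y, dN x y = dN y x := by decide
theorem dN_triangle : ∀ x y z, dN x z ≤ dN x y + dN y z := by decide
theorem dN_eq : ∀ x y, dN x y = 0 → x = y := by decide
theorem dN_mul : ∀ g x y, dN (g * x) (g * y) = dN x y := by decide
theorem dN_le : ∀ x y, dN x y ≤ 2 := by decide

noncomputable instance : MetricSpace Z4 where
  dist x y := (dN x y : ℝ)
  dist_self x := by simp [dN_self]
  dist_comm x y := by simp [dN_comm x y]
  dist_triangle x y z := by exact_mod_cast dN_triangle x y z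
  eq_of_dist_eq_zero {x y} h := dN_eq x y (by exact_mod_cast h)

theorem dist_def (x y : Z4) : dist x y = (dN x y : ℝ) := rfl

instance : MeasurableSpace Z4 := ⊤
instance : DiscreteMeasurableSpace Z4 := ⟨fun _ => trivial⟩
instance : DiscreteTopology Z4 := inferInstance
instance : BorelSpace Z4 := ⟨(borel_eq_top_of_discrete (α := Z4)).symm⟩
instance : CompactSpace Z4 := Finite.compactSpace
instance : IsTopologicalGroup Z4 := inferInstance

/-- The element with a given residue. -/
def el (k : ZMod 4) : Z4 := Multiplicative.ofAdd k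

/-- The element at distance two. -/
def anti (a : Z4) : Z4 := a * el 2

/-- An element at distance one. -/
def nxt (a : Z4) : Z4 := a * el 1

theorem f1 : ∀ a b s : Z4, dN a b = 1 → dN a s = 2 → dN b s = 1 := by decide
theorem f2 : ∀ a b s : Z4, dN a b = 2 → dN a s = 2 → dN b s = 0 := by decide
theorem f3 : ∀ a : Z4, dN a (anti a) = 2 := by decide
theorem f4 : ∀ a b : Z4, dN a b = 0 → dN b (anti a) = 2 := by decide
theorem f5 : ∀ a b : Z4, dN a b = 1 → dN b (anti a) = 1 := by decide
theorem f6 : ∀ a b : Z4, dN a b = 2 → dN b (anti a) = 0 := by decide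
theorem f7 : ∀ a : Z4, dN a (nxt a) = 1 := by decide
theorem f8 : ∀ a b : Z4, dN a b = 2 → dN b (nxt a) = 1 := by decide

/-- The time needed from the first arrival with only two seeds. -/
noncomputable def c (a b : Z4) (u : ℝ) : ℝ :=
  if dN a b = 0 then 2 else if dN a b = 1 then 2 - fB u else 2 - fA u

theorem c_le (a b : Z4) (u : ℝ) : c a b u ≤ 2 := by
  unfold c
  split_ifs
  · exact le_refl _
  · linarith [fB_nonneg u]
  · linarith [fA_nonneg u]

theorem c_nonneg (a b : Z4) (u : ℝ) : 0 ≤ c a b u := by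
  unfold c
  split_ifs
  · norm_num
  · linarith [fB_le u]
  · linarith [fA_le u]

theorem c_upper (a b s : Z4) (u : ℝ) (hu : 0 ≤ u) :
    dist a s ≤ c a b u ∨ u + dist b s ≤ c a b u := by
  have hd : dN a s ≤ 2 := dN_le a s
  simp only [dist_def]
  unfold c
  split_ifs with h0 h1
  · left
    exact_mod_cast hd
  · rcases Nat.lt_or_ge (dN a s) 2 with h | h
    · left
      have h2 : (dN a s : ℝ) ≤ 1 := by exact_mod_cast (by omega : dN a s ≤ 1)
      have h3 : 1 ≤ min 2 (max 1 (u + 1)) := le_min (by norm_num) (le_max_left _ _)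
      unfold fB
      linarith
    · have h2 : dN a s = 2 := by omega
      have h3 := f1 a b s h1 h2
      rw [h2, h3]
      unfold fB
      rcases le_total 2 (max 1 (u + 1)) with h4 | h4
      · left
        rw [min_eq_left h4]
        norm_num
      · right
        rw [min_eq_right h4, max_eq_right (by linarith)]
        push_cast
        linarith
  · have h2 : dN a b = 2 := by
      have := dN_le a b
      omega
    rcases Nat.lt_or_ge (dN a s) 2 with h | h
    · left
      have h2 : (dN a s : ℝ) ≤ 1 := by exact_mod_cast (by omega : dN a s ≤ 1)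
      have h3 : 1 ≤ max 1 (min 2 u) := le_max_left _ _
      unfold fA
      linarith
    · have h3 : dN a s = 2 := by omega
      have h4 := f2 a b s h2 h3
      rw [h3, h4]
      unfold fA
      rcases le_total 2 u with h5 | h5
      · left
        rw [min_eq_left h5]
        norm_num
      · right
        rw [min_eq_right h5]
        have := le_max_right 1 u
        push_cast
        linarith

theorem c_lower (a b : Z4) (u : ℝ) (hu : 0 ≤ u) :
    ∃ s, c a b u ≤ dist a s ∧ c a b u ≤ u + dist b s := by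
  simp only [dist_def]
  unfold c
  split_ifs with h0 h1
  · refine ⟨anti a, ?_, ?_⟩
    · rw [f3]
      norm_num
    · rw [f4 a b h0]
      push_cast
      linarith
  · refine ⟨anti a, ?_, ?_⟩
    · rw [f3]
      push_cast
      linarith [fB_nonneg u]
    · rw [f5 a b h1]
      unfold fB
      have h3 : min 2 (max 1 (u + 1)) ≤ max 1 (u + 1) := min_le_right _ _
      have h4 : max 1 (u + 1) = u + 1 := max_eq_right (by linarith)
      push_cast
      linarith
  · have h2 : dN a b = 2 := by
      have := dN_le a b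
      omega
    rcases le_total 1 u with h3 | h3
    · refine ⟨anti a, ?_, ?_⟩
      · rw [f3]
        push_cast
        linarith [fA_nonneg u]
      · rw [f6 a b h2]
        unfold fA
        have h4 : max 1 (min 2 u) ≤ u := max_le h3 (min_le_right _ _)
        push_cast
        linarith
    · refine ⟨nxt a, ?_, ?_⟩
      · rw [f7]
        unfold fA
        have h4 : max 1 (min 2 u) = 1 := max_eq_left ((min_le_right _ _).trans h3)
        rw [h4]
        push_cast
        linarith
      · rw [f8 a b h2]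
        unfold fA
        have h4 : max 1 (min 2 u) = 1 := max_eq_left ((min_le_right _ _).trans h3)
        rw [h4]
        push_cast
        linarith

/-! ### Deterministic estimates -/

theorem arrival_zero (ξ : ℕ → ℝ) : arrival ξ 0 = ξ 0 := by simp [arrival]

theorem arrival_one (ξ : ℕ → ℝ) : arrival ξ 1 = ξ 0 + ξ 1 := by
  simp [arrival, Finset.sum_range_succ]

theorem arrival_ge {ξ : ℕ → ℝ} (h : ∀ i, 0 ≤ ξ i) {i j : ℕ} (hij : i ≤ j) :
    arrival ξ i ≤ arrival ξ j := by
  unfold arrival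
  exact Finset.sum_le_sum_of_subset_of_nonneg (Finset.range_mono (by omega)) fun k _ _ => h k

theorem mem_cover {ξ : ℕ → ℝ} (h : ∀ i, 0 ≤ ξ i) (σ : ℕ → Z4) :
    ξ 0 + c (σ 0) (σ 1) (ξ 1) ∈ {t : ℝ | 0 ≤ t ∧ grown 1 ξ σ t = univ} := by
  have hc := c_nonneg (σ 0) (σ 1) (ξ 1)
  refine ⟨by linarith [h 0], ?_⟩
  rw [eq_univ_iff_forall]
  intro s
  rcases c_upper (σ 0) (σ 1) s (ξ 1) (h 1) with h1 | h1
  · refine ⟨0, ?_, ?_⟩
    · rw [arrival_zero]
      linarith
    · rw [arrival_zero]
      linarith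
  · refine ⟨1, ?_, ?_⟩
    · rw [arrival_one]
      have := dist_nonneg (x := σ 1) (y := s)
      linarith
    · rw [arrival_one]
      linarith

theorem cover_le {ξ : ℕ → ℝ} (h : ∀ i, 0 ≤ ξ i) (σ : ℕ → Z4) :
    coverTime 1 ξ σ ≤ ξ 0 + c (σ 0) (σ 1) (ξ 1) :=
  csInf_le ⟨0, fun _ ht => ht.1⟩ (mem_cover h σ)

theorem le_cover_zero {ξ : ℕ → ℝ} (h : ∀ i, 0 ≤ ξ i) (σ : ℕ → Z4) :
    ξ 0 ≤ coverTime 1 ξ σ := by
  refine le_csInf ⟨_, mem_cover h σ⟩ ?_
  rintro t ⟨_, ht⟩
  have h1 : (1 : Z4) ∈ grown 1 ξ σ t := by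
    rw [ht]
    trivial
  obtain ⟨i, hi, _⟩ := h1
  have := arrival_ge h (Nat.zero_le i)
  rw [arrival_zero] at this
  linarith

theorem le_cover {ξ : ℕ → ℝ} (h : ∀ i, 0 ≤ ξ i) (σ : ℕ → Z4) (h2 : 2 ≤ ξ 1 + ξ 2) :
    ξ 0 + c (σ 0) (σ 1) (ξ 1) ≤ coverTime 1 ξ σ := by
  refine le_csInf ⟨_, mem_cover h σ⟩ ?_
  rintro t ⟨_, ht⟩
  by_contra hlt
  push Not at hlt
  obtain ⟨s, hs1, hs2⟩ := c_lower (σ 0) (σ 1) (ξ 1) (h 1)
  have h1 : s ∈ grown 1 ξ σ t := by
    rw [ht]
    trivial
  obtain ⟨i, hi, hi'⟩ := h1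
  have hc := c_le (σ 0) (σ 1) (ξ 1)
  rcases Nat.lt_or_ge i 2 with hi2 | hi2
  · interval_cases i
    · rw [arrival_zero] at hi hi'
      linarith
    · rw [arrival_one] at hi hi'
      linarith
  · have h3 := arrival_ge h hi2
    have h4 : arrival ξ 2 = ξ 0 + ξ 1 + ξ 2 := by
      simp [arrival, Finset.sum_range_succ]
    linarith

/-! ### The means -/

section means

variable {r : ℝ} (hr : 0 < r) (μ : Measure Z4) [IsProbabilityMeasure μ]

/-- Mean of `c a b`. -/
noncomputable def K (r : ℝ) (a b : Z4) : ℝ≥0∞ := ∫⁻ u, ENNReal.ofReal (c a b u) ∂(expMeasure r)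

/-- Mean of the first waiting time. -/
noncomputable def M (r : ℝ) : ℝ≥0∞ := ∫⁻ u, ENNReal.ofReal u ∂(expMeasure r)

/-- Average of `K`. -/
noncomputable def avg (r : ℝ) (μ : Measure Z4) : ℝ≥0∞ := ∫⁻ a, ∫⁻ b, K r a b ∂μ ∂μ

/-- The law of the waiting times. -/
noncomputable def PE (r : ℝ) : Measure (ℕ → ℝ) := Measure.infinitePi fun _ : ℕ => expMeasure r

/-- The law of the seeds. -/
noncomputable def PS (μ : Measure Z4) : Measure (ℕ → Z4) := Measure.infinitePi fun _ : ℕ => μ

theorem measurable_c (a b : Z4) : Measurable (c a b) := by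
  unfold c
  split_ifs
  · exact measurable_const
  · exact measurable_const.sub continuous_fB.measurable
  · exact measurable_const.sub continuous_fA.measurable

theorem measurable_c1 : Measurable (fun p : (Z4 × Z4) × ℝ => c p.1.1 p.1.2 p.2) :=
  measurable_from_prod_countable_right (fun p => measurable_c p.1 p.2)

theorem measurable_c2 : Measurable (fun ω : (ℕ → ℝ) × (ℕ → Z4) =>
    (((ω.2 0, ω.2 1), ω.1 1) : (Z4 × Z4) × ℝ)) :=
  Measurable.prodMk (Measurable.prodMk (by fun_prop) (by fun_prop)) (by fun_prop)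

theorem measurable_c' : Measurable (fun ω : (ℕ → ℝ) × (ℕ → Z4) =>
    c (ω.2 0) (ω.2 1) (ω.1 1)) := by
  have := measurable_c1.comp measurable_c2
  simp only [Function.comp_def] at this
  exact this

theorem lint_first (hr : 0 < r) : ∫⁻ ω : (ℕ → ℝ) × (ℕ → Z4), ENNReal.ofReal (ω.1 0)
    ∂((PE r).prod (PS μ)) = M r := by
  have := isProbabilityMeasure_expMeasure hr
  unfold PE PS M
  rw [lintegral_prod _ (by fun_prop)]
  simp only [lintegral_const, measure_univ, mul_one]
  exact (measurePreserving_eval_infinitePi (fun _ : ℕ => expMeasure r) 0).lintegral_comp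
    (f := fun u => ENNReal.ofReal u) (by fun_prop)

theorem lint_second (hr : 0 < r) : ∫⁻ ω : (ℕ → ℝ) × (ℕ → Z4),
    ENNReal.ofReal (c (ω.2 0) (ω.2 1) (ω.1 1)) ∂((PE r).prod (PS μ)) = avg r μ := by
  have := isProbabilityMeasure_expMeasure hr
  unfold PE PS
  rw [lintegral_prod_symm _ measurable_c'.ennreal_ofReal.aemeasurable]
  have h1 : ∀ σ : ℕ → Z4, ∫⁻ ξ : ℕ → ℝ, ENNReal.ofReal (c (σ 0) (σ 1) (ξ 1))
      ∂(Measure.infinitePi fun _ : ℕ => expMeasure r) = K r (σ 0) (σ 1) := by
    intro σ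
    exact (measurePreserving_eval_infinitePi (fun _ : ℕ => expMeasure r) 1).lintegral_comp
      (f := fun u => ENNReal.ofReal (c (σ 0) (σ 1) u)) (measurable_c _ _).ennreal_ofReal
  simp_rw [h1]
  have h2 := Measure.infinitePi_map_eval_prod (P := fun _ : ℕ => μ) (i := 0) (j := 1)
    (by norm_num)
  have h3 : ∫⁻ σ : ℕ → Z4, K r (σ 0) (σ 1) ∂(Measure.infinitePi fun _ : ℕ => μ) =
      ∫⁻ p : Z4 × Z4, K r p.1 p.2 ∂(μ.prod μ) := by
    rw [← h2, lintegral_map]
    · exact measurable_from_prod_countable_right fun p => measurable_of_countable _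
    · exact (measurable_pi_apply 0).prodMk (measurable_pi_apply 1)
  rw [h3, lintegral_prod]
  · rfl
  · exact (measurable_from_prod_countable_right fun p => measurable_of_countable _).aemeasurable

theorem ae_nonneg (hr : 0 < r) : ∀ᵐ ω : (ℕ → ℝ) × (ℕ → Z4) ∂((PE r).prod (PS μ)),
    ∀ i, 0 ≤ ω.1 i := by
  have := isProbabilityMeasure_expMeasure hr
  rw [ae_all_iff]
  intro i
  have h1 : ∀ᵐ ξ : ℕ → ℝ ∂(PE r), 0 ≤ ξ i := by
    have h2 := (measurePreserving_eval_infinitePi (fun _ : ℕ => expMeasure r) i)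
    have h3 := h2.quasiMeasurePreserving.ae (exp_ae_pos r)
    filter_upwards [h3] with ξ h4
    exact le_of_lt h4
  have : IsProbabilityMeasure (PE r) := by
    unfold PE
    infer_instance
  have : IsProbabilityMeasure (PS μ) := by
    unfold PS
    infer_instance
  exact Measure.quasiMeasurePreserving_fst.ae h1

theorem mean_le (hr : 0 < r) : meanCover r 1 μ ≤ M r + avg r μ := by
  unfold meanCover
  rw [← lint_first μ hr, ← lint_second μ hr, ← lintegral_add_left (by fun_prop)]
  refine lintegral_mono_ae ?_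
  filter_upwards [ae_nonneg μ hr] with ω hω
  rw [← ENNReal.ofReal_add (hω 0) (c_nonneg _ _ _)]
  exact ENNReal.ofReal_le_ofReal (cover_le hω ω.2)

theorem le_mean (hr : 0 < r) :
    M r + avg r μ ≤ meanCover r 1 μ + 2 * (ENNReal.ofReal (2 * r)) ^ 2 := by
  have := isProbabilityMeasure_expMeasure hr
  have hP : IsProbabilityMeasure (PE r) := by
    unfold PE
    infer_instance
  have hS : IsProbabilityMeasure (PS μ) := by
    unfold PS
    infer_instance
  have hset : MeasurableSet {ξ : ℕ → ℝ | ξ 1 < 2 ∧ ξ 2 < 2} :=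
    (measurableSet_lt (measurable_pi_apply 1) measurable_const).inter
      (measurableSet_lt (measurable_pi_apply 2) measurable_const)
  have hbad : (PE r) {ξ : ℕ → ℝ | ξ 1 < 2 ∧ ξ 2 < 2} ≤ (ENNReal.ofReal (2 * r)) ^ 2 := by
    have h2 := Measure.infinitePi_map_eval_prod (P := fun _ : ℕ => expMeasure r) (i := 1) (j := 2)
      (by norm_num)
    have h3 : {ξ : ℕ → ℝ | ξ 1 < 2 ∧ ξ 2 < 2} =
      (fun ξ : ℕ → ℝ => (ξ 1, ξ 2)) ⁻¹' (Iio 2 ×ˢ Iio 2) := by
      ext ξ
      simp
    unfold PE
    rw [h3, ← Measure.map_apply (by fun_prop) (measurableSet_Iio.prod measurableSet_Iio), h2,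
      Measure.prod_prod, pow_two]
    exact mul_le_mul' (exp_lt_two hr) (exp_lt_two hr)
  have hmi : Measurable (fun ω : (ℕ → ℝ) × (ℕ → Z4) =>
      ({ξ : ℕ → ℝ | ξ 1 < 2 ∧ ξ 2 < 2}.indicator (fun _ => (2 : ℝ≥0∞)) ω.1)) := by
    have h1 : Measurable ({ξ : ℕ → ℝ | ξ 1 < 2 ∧ ξ 2 < 2}.indicator (fun _ => (2 : ℝ≥0∞))) :=
      measurable_const.indicator hset
    exact h1.comp measurable_fst
  have hind : ∫⁻ ω : (ℕ → ℝ) × (ℕ → Z4),
      ({ξ : ℕ → ℝ | ξ 1 < 2 ∧ ξ 2 < 2}.indicator (fun _ => (2 : ℝ≥0∞)) ω.1)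
      ∂((PE r).prod (PS μ)) ≤ 2 * (ENNReal.ofReal (2 * r)) ^ 2 := by
    rw [lintegral_prod _ hmi.aemeasurable]
    simp only [lintegral_const, measure_univ, mul_one]
    rw [lintegral_indicator hset, lintegral_const, Measure.restrict_apply_univ]
    exact mul_le_mul_right hbad 2
  refine le_trans ?_ (add_le_add_right hind _)
  change M r + avg r μ ≤ ∫⁻ ω : (ℕ → ℝ) × (ℕ → Z4), ENNReal.ofReal (coverTime 1 ω.1 ω.2)
    ∂((PE r).prod (PS μ)) + _
  rw [← lint_first μ hr, ← lint_second μ hr, ← lintegral_add_left (by fun_prop),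
    ← lintegral_add_right _ hmi]
  refine lintegral_mono_ae ?_
  filter_upwards [ae_nonneg μ hr] with ω hω
  rw [← ENNReal.ofReal_add (hω 0) (c_nonneg _ _ _)]
  by_cases h : 2 ≤ ω.1 1 + ω.1 2
  · exact (ENNReal.ofReal_le_ofReal (le_cover hω ω.2 h)).trans le_self_add
  · have hm : ω.1 ∈ {ξ : ℕ → ℝ | ξ 1 < 2 ∧ ξ 2 < 2} :=
      ⟨by linarith [hω 2], by linarith [hω 1]⟩
    rw [indicator_of_mem hm]
    rw [ENNReal.ofReal_add (hω 0) (c_nonneg _ _ _)]
    refine add_le_add (ENNReal.ofReal_le_ofReal (le_cover_zero hω ω.2)) ?_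
    have : ENNReal.ofReal (c (ω.2 0) (ω.2 1) (ω.1 1)) ≤ ENNReal.ofReal 2 :=
      ENNReal.ofReal_le_ofReal (c_le _ _ _)
    simpa using this

end means

/-! ### The two measures -/

/-- The uniform measure on the subgroup of order two. -/
noncomputable def muH : Measure Z4 :=
  (1 / 2 : ℝ≥0∞) • Measure.dirac (el 0) + (1 / 2 : ℝ≥0∞) • Measure.dirac (el 2)

/-- The Haar probability measure. -/
noncomputable def haar4 : Measure Z4 := (1 / 4 : ℝ≥0∞) • Measure.count

theorem half_add : (1 / 2 : ℝ≥0∞) + 1 / 2 = 1 := ENNReal.add_halves 1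

instance : IsProbabilityMeasure muH := by
  constructor
  unfold muH
  simp only [Measure.coe_add, Measure.coe_smul, Pi.add_apply, Pi.smul_apply, measure_univ,
    smul_eq_mul, mul_one]
  exact half_add

theorem univ4 : (Finset.univ : Finset Z4) = {el 0, el 1, el 2, el 3} := by decide

theorem quarter : (1 / 4 : ℝ≥0∞) * 4 = 1 := by
  rw [one_div]
  exact ENNReal.inv_mul_cancel (by norm_num) (by norm_num)

instance : IsProbabilityMeasure haar4 := by
  constructor
  unfold haar4
  rw [Measure.smul_apply, Measure.count_univ, smul_eq_mul]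
  have : ENat.card Z4 = 4 := by
    rw [ENat.card_eq_coe_fintype_card]
    rfl
  rw [this]
  exact_mod_cast quarter

instance : haar4.IsMulLeftInvariant := by
  unfold haar4
  infer_instance

instance : haar4.IsHaarMeasure :=
  Measure.isHaarMeasure_of_isCompact_nonempty_interior haar4 univ isCompact_univ
    (by rw [interior_univ]; exact ⟨1, trivial⟩) (by rw [measure_univ]; norm_num)
    (by rw [measure_univ]; norm_num)

/-- Mean for distance one. -/
noncomputable def k1 (r : ℝ) : ℝ≥0∞ := ∫⁻ u, ENNReal.ofReal (2 - fB u) ∂(expMeasure r)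

/-- Mean for distance two. -/
noncomputable def k2 (r : ℝ) : ℝ≥0∞ := ∫⁻ u, ENNReal.ofReal (2 - fA u) ∂(expMeasure r)

theorem K_zero {r : ℝ} (hr : 0 < r) {a b : Z4} (h : dN a b = 0) : K r a b = 2 := by
  have := isProbabilityMeasure_expMeasure hr
  unfold K c
  simp [h]

theorem K_one {r : ℝ} {a b : Z4} (h : dN a b = 1) : K r a b = k1 r := by
  unfold K c k1
  simp [h]

theorem K_two {r : ℝ} {a b : Z4} (h : dN a b = 2) : K r a b = k2 r := by
  unfold K c k2
  simp [h]

theorem k1_add {r : ℝ} (hr : 0 < r) :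
    k1 r + ∫⁻ u, ENNReal.ofReal (fB u) ∂(expMeasure r) = 2 := by
  have := isProbabilityMeasure_expMeasure hr
  unfold k1
  rw [← lintegral_add_right _ continuous_fB.measurable.ennreal_ofReal]
  have : ∀ u, ENNReal.ofReal (2 - fB u) + ENNReal.ofReal (fB u) = 2 := by
    intro u
    rw [← ENNReal.ofReal_add (by linarith [fB_le u]) (fB_nonneg u)]
    simp
  simp_rw [this]
  simp

theorem k2_add {r : ℝ} (hr : 0 < r) :
    k2 r + ∫⁻ u, ENNReal.ofReal (fA u) ∂(expMeasure r) = 2 := by
  have := isProbabilityMeasure_expMeasure hr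
  unfold k2
  rw [← lintegral_add_right _ continuous_fA.measurable.ennreal_ofReal]
  have : ∀ u, ENNReal.ofReal (2 - fA u) + ENNReal.ofReal (fA u) = 2 := by
    intro u
    rw [← ENNReal.ofReal_add (by linarith [fA_le u]) (fA_nonneg u)]
    simp
  simp_rw [this]
  simp

theorem avg_H {r : ℝ} (hr : 0 < r) : avg r muH = 1 / 2 * 2 + 1 / 2 * k2 r := by
  unfold avg muH
  simp only [lintegral_add_measure, lintegral_smul_measure, lintegral_dirac, smul_eq_mul]
  rw [K_zero hr (by decide : dN (el 0) (el 0) = 0), K_two (by decide : dN (el 0) (el 2) = 2),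
    K_two (by decide : dN (el 2) (el 0) = 2), K_zero hr (by decide : dN (el 2) (el 2) = 0)]
  have h : (1 / 2 : ℝ≥0∞) * (1 / 2 * k2 r + 1 / 2 * 2) =
    (1 / 2 : ℝ≥0∞) * (1 / 2 * 2 + 1 / 2 * k2 r) := by rw [add_comm]
  rw [h, ← add_mul, half_add, one_mul]

theorem K_mul (r : ℝ) (g a b : Z4) : K r (g * a) (g * b) = K r a b := by
  unfold K c
  rw [dN_mul]

theorem sum_K {r : ℝ} (hr : 0 < r) (a : Z4) : ∑ b, K r a b = 2 + 2 * k1 r + k2 r := by
  have h1 : ∑ b, K r a b = ∑ b, K r (el 0) b := by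
    refine (Fintype.sum_equiv (Equiv.mulLeft a) _ _ fun b => ?_).symm
    have : K r a (a * b) = K r (a * el 0) (a * b) := by
      congr 1
      exact (mul_one a).symm
    simp only [Equiv.coe_mulLeft]
    rw [this, K_mul]
  rw [h1, univ4, Finset.sum_insert (by decide), Finset.sum_insert (by decide),
    Finset.sum_insert (by decide), Finset.sum_singleton,
    K_zero hr (by decide : dN (el 0) (el 0) = 0), K_one (by decide : dN (el 0) (el 1) = 1),
    K_two (by decide : dN (el 0) (el 2) = 2), K_one (by decide : dN (el 0) (el 3) = 1)]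
  ring

theorem avg_haar {r : ℝ} (hr : 0 < r) :
    avg r haar4 = 1 / 4 * (2 + 2 * k1 r + k2 r) := by
  unfold avg haar4
  simp only [lintegral_smul_measure, lintegral_count, tsum_fintype, smul_eq_mul]
  simp_rw [sum_K hr]
  rw [Finset.sum_const, Finset.card_univ]
  have : Fintype.card Z4 = 4 := rfl
  rw [this, nsmul_eq_mul]
  have h2 : (1 / 4 : ℝ≥0∞) * (((4 : ℕ) : ℝ≥0∞) * (1 / 4 * (2 + 2 * k1 r + k2 r))) =
    ((1 / 4 : ℝ≥0∞) * 4) * (1 / 4 * (2 + 2 * k1 r + k2 r)) := by
    rw [mul_assoc]
    norm_cast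
  rw [h2, quarter, one_mul]

theorem main_lt : meanCover (1 / 100) 1 muH < meanCover (1 / 100) 1 haar4 := by
  have hr : (0 : ℝ) < 1 / 100 := by norm_num
  have h1 := mean_le (r := 1 / 100) muH hr
  have h2 := le_mean (r := 1 / 100) haar4 hr
  by_contra hcon
  push Not at hcon
  have h3 := h2.trans (add_le_add_left (hcon.trans h1) _)
  rw [add_assoc] at h3
  have h4 := (ENNReal.add_le_add_iff_left (exp_mean_lt_top hr)).mp h3
  rw [avg_H hr, avg_haar hr] at h4
  have a1 := k1_add hr
  have a2 := k2_add hr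
  have b1 := lintB hr
  have b2 := lintA hr
  have t1 : k1 (1 / 100) ≠ ⊤ := by
    intro h
    rw [h] at a1
    simp at a1
  have t2 : k2 (1 / 100) ≠ ⊤ := by
    intro h
    rw [h] at a2
    simp at a2
  have tB : ∫⁻ u, ENNReal.ofReal (fB u) ∂(expMeasure (1 / 100)) ≠ ⊤ := by
    intro h
    rw [h] at a1
    simp at a1
  have tA : ∫⁻ u, ENNReal.ofReal (fA u) ∂(expMeasure (1 / 100)) ≠ ⊤ := by
    intro h
    rw [h] at a2
    simp at a2
  have c1 := congrArg ENNReal.toReal a1
  rw [ENNReal.toReal_add t1 tB] at c1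
  have c2 := congrArg ENNReal.toReal a2
  rw [ENNReal.toReal_add t2 tA] at c2
  have d1 := ENNReal.toReal_mono (by simp) b1
  rw [ENNReal.toReal_ofReal (by norm_num)] at d1
  have d2 := ENNReal.toReal_mono tA b2
  rw [ENNReal.toReal_ofReal (by positivity)] at d2
  have e1 : (1 / 2 * 2 + 1 / 2 * k2 (1 / 100) + 2 * ENNReal.ofReal (2 * (1 / 100)) ^ 2) ≠ ⊤ := by
    refine ENNReal.add_ne_top.mpr ⟨ENNReal.add_ne_top.mpr ⟨?_, ?_⟩, ?_⟩
    · exact ENNReal.mul_ne_top (by simp) (by simp)
    · exact ENNReal.mul_ne_top (by simp) t2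
    · exact ENNReal.mul_ne_top (by simp) (ENNReal.pow_ne_top ENNReal.ofReal_ne_top)
  have h5 := ENNReal.toReal_mono e1 h4
  rw [ENNReal.toReal_mul, ENNReal.toReal_add
    (ENNReal.add_ne_top.mpr ⟨by simp, ENNReal.mul_ne_top (by simp) t1⟩) t2,
    ENNReal.toReal_add (by simp) (ENNReal.mul_ne_top (by simp) t1), ENNReal.toReal_mul,
    ENNReal.toReal_add (ENNReal.add_ne_top.mpr ⟨ENNReal.mul_ne_top (by simp) (by simp),
      ENNReal.mul_ne_top (by simp) t2⟩)
      (ENNReal.mul_ne_top (by simp) (ENNReal.pow_ne_top ENNReal.ofReal_ne_top)),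
    ENNReal.toReal_add (ENNReal.mul_ne_top (by simp) (by simp)) (ENNReal.mul_ne_top (by simp) t2),
    ENNReal.toReal_mul, ENNReal.toReal_mul, ENNReal.toReal_mul, ENNReal.toReal_pow,
    ENNReal.toReal_ofReal (by norm_num)] at h5
  have hexp : (98 : ℝ) / 100 ≤ Real.exp (-(2 * (1 / 100))) := by
    have := Real.add_one_le_exp (-(2 * (1 / 100)) : ℝ)
    linarith
  simp at h5 c1 c2 d1 d2 hexp
  nlinarith

/-- There are a compact group with a translation invariant metric, rates, and a Borel probability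
measure whose mean cover time is smaller than that of the Haar probability measure. -/
theorem result : ∃ (S : Type) (_ : Group S) (_ : MetricSpace S) (_ : CompactSpace S)
    (_ : IsTopologicalGroup S) (_ : MeasurableSpace S) (_ : BorelSpace S)
    (r v : ℝ) (m μ : Measure S),
    (∀ g x y : S, dist (g * x) (g * y) = dist x y) ∧ 0 < r ∧ 0 < v ∧
    IsProbabilityMeasure m ∧ m.IsHaarMeasure ∧ IsProbabilityMeasure μ ∧
    meanCover r v μ < meanCover r v m := by
  refine ⟨Z4, inferInstance, inferInstance, inferInstance, inferInstance, inferInstance,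
    inferInstance, 1 / 100, 1, haar4, muH, ?_, by norm_num, by norm_num, inferInstance,
    inferInstance, inferInstance, main_lt⟩
  intro g x y
  rw [dist_def, dist_def, dN_mul]

end Pool.Agent.Results.MP_b215e8_pr.HaarNotOptimal
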